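import Pool.Agent.H151.TEmb

/-!
Compositions of t-embeddings, and totally disconnected compact t-embedded subspaces.
-/

set_option autoImplicit false

open Set Topology Filter unitInterval
open Pool.Agent.H151

namespace Pool.Agent.Y66.TX

universe u v w

/-- A map `e : K → Y` for which there is a continuous extender `C_p(K) → C_p(Y)`. -/
def TEmb {K : Type u} {Y : Type v} [TopologicalSpace K] [TopologicalSpace Y] (e : K → Y) : Prop :=
  ∃ φ : Cp K → Cp Y, Continuous φ ∧ ∀ (f : Cp K) (k : K), (φ f).1 (e k) = f.1 k

/-- Composition with a continuous map. -/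
def pull {K : Type u} {Y : Type v} [TopologicalSpace K] [TopologicalSpace Y] (c : K → Y)
    (hc : Continuous c) (f : Cp Y) : Cp K := ⟨fun k => f.1 (c k), f.2.comp hc⟩

theorem continuous_pull {K : Type u} {Y : Type v} [TopologicalSpace K] [TopologicalSpace Y]
    (c : K → Y) (hc : Continuous c) : Continuous (pull c hc) := by
  rw [continuous_induced_rng]
  refine continuous_pi fun k => ?_
  exact (continuous_apply (c k)).comp continuous_subtype_val

theorem temb_of_range {K Y : Type u} [TopologicalSpace K] [TopologicalSpace Y] {e : K → Y}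
    (he : IsEmbedding e) (h : TEmbedded (range e)) : TEmb e := by
  obtain ⟨φ, hφ, hext⟩ := h
  let H : K ≃ₜ range e := he.toHomeomorph
  refine ⟨fun f => φ (pull H.symm H.symm.continuous f), hφ.comp (continuous_pull _ _),
    fun f k => ?_⟩
  have h1 := hext (pull H.symm H.symm.continuous f) (H k)
  have h2 : ((H k : range e) : Y) = e k := rfl
  rw [h2] at h1
  rw [h1]
  show f.1 (H.symm (H k)) = f.1 k
  rw [H.symm_apply_apply]

theorem range_of_temb {K Y : Type u} [TopologicalSpace K] [TopologicalSpace Y] {e : K → Y}
    (he : IsEmbedding e) (h : TEmb e) : TEmbedded (range e) := by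
  obtain ⟨φ, hφ, hext⟩ := h
  let H : K ≃ₜ range e := he.toHomeomorph
  refine ⟨fun f => φ (pull H H.continuous f), hφ.comp (continuous_pull _ _), ?_⟩
  rintro f ⟨_, k, rfl⟩
  exact hext (pull H H.continuous f) k

theorem TEmb.comp {K : Type u} {Y : Type v} {Z : Type w} [TopologicalSpace K] [TopologicalSpace Y]
    [TopologicalSpace Z] {e : K → Y} {j : Y → Z} (hj : TEmb j) (he : TEmb e) : TEmb (j ∘ e) := by
  obtain ⟨φ, hφ, h1⟩ := he
  obtain ⟨ψ, hψ, h2⟩ := hj
  exact ⟨fun f => ψ (φ f), hψ.comp hφ, fun f k => (h2 (φ f) (e k)).trans (h1 f k)⟩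

theorem TEmb.of_comp {K : Type u} {Y : Type v} {Z : Type w} [TopologicalSpace K]
    [TopologicalSpace Y] [TopologicalSpace Z] {e : K → Y} {c : Y → Z} (hc : Continuous c)
    (h : TEmb (c ∘ e)) : TEmb e := by
  obtain ⟨φ, hφ, h1⟩ := h
  exact ⟨fun f => pull c hc (φ f), (continuous_pull c hc).comp hφ, fun f k => h1 f k⟩

theorem TEmb.of_retraction {K : Type u} {Y : Type v} [TopologicalSpace K] [TopologicalSpace Y]
    {e : K → Y} (r : Y → K) (hr : Continuous r) (h : ∀ k, r (e k) = k) : TEmb e :=
  ⟨pull r hr, continuous_pull r hr, fun f k => by show f.1 (r (e k)) = f.1 k; rw [h]⟩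

/-- Totally disconnected compact spaces that are t-embedded in a Tychonoff cube. -/
theorem metrizable_of_cube {K : Type u} [TopologicalSpace K] [CompactSpace K] [T2Space K]
    [TotallyDisconnectedSpace K] {lam : Type u} {e : K → (lam → I)} (he : IsEmbedding e)
    (h : TEmb e) : TopologicalSpace.MetrizableSpace K :=
  metrizable_of_countable (countable_of_temb_range e he (range_of_temb he h))

/-- **Main lemma.** If `Y` is t-embedded in a Tychonoff cube, then every totally disconnected
compact space that is t-embedded in `Y` is metrizable. -/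
theorem metrizable_of_chain {Y : Type u} [TopologicalSpace Y] {lam : Type u} {j : Y → (lam → I)}
    (hj : IsEmbedding j) (hjt : TEmbedded (range j)) {K : Type u} [TopologicalSpace K]
    [CompactSpace K] [T2Space K] [TotallyDisconnectedSpace K] {e : K → Y} (he : IsEmbedding e)
    (h : TEmb e) : TopologicalSpace.MetrizableSpace K :=
  metrizable_of_cube (hj.comp he) ((temb_of_range hj hjt).comp h)

theorem range_val {Y : Type u} (S : Set Y) : range (Subtype.val : S → Y) = S := Subtype.range_coe

theorem temb_val {Y : Type u} [TopologicalSpace Y] {S : Set Y} (h : TEmbedded S) :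
    TEmb (Subtype.val : S → Y) := by
  obtain ⟨φ, hφ, hext⟩ := h
  exact ⟨φ, hφ, hext⟩

/-- Compact Hausdorff spaces are closed subspaces of Tychonoff cubes. -/
theorem exists_cube (Y : Type u) [TopologicalSpace Y] [CompactSpace Y] [T2Space Y] :
    ∃ (lam : Type u) (j : Y → (lam → I)), IsClosedEmbedding j := by
  refine ⟨C(Y, I), fun y g => g y, ?_⟩
  refine (continuous_pi fun g => g.continuous).isClosedEmbedding ?_
  intro x y hxy
  by_contra hne
  obtain ⟨f, hf, hf0, hf1⟩ := CompletelyRegularSpace.completely_regular x {y}
    isClosed_singleton (by simpa using hne)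
  have h1 := congrFun hxy ⟨f, hf⟩
  have h2 : f y = 1 := hf1 rfl
  have h3 : f x = f y := h1
  rw [hf0, h2] at h3
  exact zero_ne_one h3

/-- Totally disconnected compact spaces that are t-embedded in a t-extral compact space. -/
theorem metrizable_of_extral {Y : Type u} [TopologicalSpace Y] [CompactSpace Y] [T2Space Y]
    (hY : TExtral Y) {K : Type u} [TopologicalSpace K] [CompactSpace K] [T2Space K]
    [TotallyDisconnectedSpace K] {e : K → Y} (he : IsEmbedding e) (h : TEmb e) :
    TopologicalSpace.MetrizableSpace K := by
  obtain ⟨lam, j, hj⟩ := exists_cube Y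
  exact metrizable_of_chain hj.isEmbedding (hY _ j hj) he h

/-- Totally disconnected compact spaces that are t-embedded in a power of the real line. -/
theorem metrizable_of_reals {K : Type u} [TopologicalSpace K] [CompactSpace K] [T2Space K]
    [TotallyDisconnectedSpace K] {lam : Type u} {e : K → (lam → ℝ)} (he : IsEmbedding e)
    (h : TEmb e) : TopologicalSpace.MetrizableSpace K := by
  have hb : ∀ i, ∃ M : ℝ, 0 < M ∧ ∀ k, |e k i| ≤ M := by
    intro i
    have hc : Continuous fun k => e k i := (continuous_apply i).comp he.continuous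
    obtain ⟨M, hM⟩ := (isCompact_range hc).isBounded.exists_norm_le
    refine ⟨max M 1, lt_max_of_lt_right one_pos, fun k => le_max_of_le_left ?_⟩
    exact hM _ ⟨k, rfl⟩
  choose M hM0 hM using hb
  let c : (lam → I) → (lam → ℝ) := fun t i => M i * (2 * (t i : ℝ) - 1)
  have hc : Continuous c := continuous_pi fun i => by fun_prop
  let e' : K → (lam → I) := fun k i => ⟨(e k i / M i + 1) / 2, by
    have h1 := abs_le.1 (hM i k)
    have h2 := hM0 i
    have h3 : -1 ≤ e k i / M i := by rw [le_div_iff₀ h2]; linarith
    have h4 : e k i / M i ≤ 1 := by rw [div_le_iff₀ h2]; linarith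
    constructor <;> linarith⟩
  have hce : c ∘ e' = e := by
    funext k i
    simp only [c, e', Function.comp]
    have := (hM0 i).ne'
    field_simp
    ring
  have he' : Continuous e' := continuous_pi fun i => Continuous.subtype_mk (by
    have h1 : Continuous fun k => e k i := (continuous_apply i).comp he.continuous
    fun_prop) _
  have hemb : IsEmbedding e' := by
    refine (he'.isClosedEmbedding ?_).isEmbedding
    intro x y hxy
    apply he.injective
    rw [← hce]
    exact congrArg c hxy
  rw [← hce] at h
  exact metrizable_of_cube hemb (h.of_comp hc)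

end Pool.Agent.Y66.TX
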